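import Pool.Agent.Helper62.OP.Defs
import Pool.Agent.Helper82.OPT.Psi

/-!
# OP: blocks O6 (`psi_near`), O7a (`mt_sum`) and O7b (`var_low`)
-/

set_option autoImplicit false
open MeasureTheory Set Filter Topology
open Pool.Agent.Helper57.TX (QX)
open Pool.Agent.Helper69.UG (XX)
open Pool.Agent.Helper93.UG (sp)
open Pool.Agent.Helper62.OP

namespace Pool.Agent.Helper82.OP

/-- the parameters -/
lemma par {k d T R L : ℝ} (hk : 0 < k) (hkd : k ≤ d / 100) (hd : 0 < d) (hd1 : d ≤ 1) (hT : 3 ≤ T) (hL : 3 ≤ L) (h : Rng d T R L) :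
    1 ≤ Real.log T ∧ 0 < R ∧ 1 ≤ L / R ∧ L ^ d ≤ L / R ∧ 1 ≤ Ms k R L ∧ Ms k R L ≤ R ∧ L ≤ Lf k R L ∧ Lf k R L ≤ Real.log T ∧
      Lf k R L / Real.log T ≤ (L / R) ^ (k - d) ∧ Ms k R L / R = (L / R) ^ (-k) ∧ L / Lf k R L = (L / R) ^ (-k) ∧
      Lf k R L / Ms k R L = (L / R) ^ (1 + 2 * k) := by
  obtain ⟨h1, h2, h3⟩ := h
  have hL0 : 0 < L := by linarith
  have hL1 : 1 ≤ L := by linarith
  have hR0 : 0 < R := (Real.rpow_pos_of_pos hL0 d).trans_le h2
  have hR1 : 1 ≤ R := (Real.one_le_rpow hL1 hd.le).trans h2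
  have hlT : 1 ≤ Real.log T := by
    rw [Real.le_log_iff_exp_le (by linarith)]
    have := Real.exp_one_lt_d9
    linarith
  have hlT0 : 0 < Real.log T := by linarith
  have hUd : L ^ d ≤ L / R := by
    rw [le_div_iff₀ hR0]
    calc L ^ d * R ≤ L ^ d * L ^ (1 - d) := mul_le_mul_of_nonneg_left h3 (by positivity)
      _ = L := by rw [← Real.rpow_add hL0]; norm_num
  have hU1 : 1 ≤ L / R := (Real.one_le_rpow hL1 hd.le).trans hUd
  have hU0 : 0 < L / R := by linarith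
  have hUL : L / R ≤ L := div_le_self hL0.le hR1
  have hUk1 : 1 ≤ (L / R) ^ k := Real.one_le_rpow hU1 hk.le
  have hUkd : (L / R) ^ k ≤ L ^ d := by
    calc (L / R) ^ k ≤ L ^ k := Real.rpow_le_rpow hU0.le hUL hk.le
      _ ≤ L ^ d := Real.rpow_le_rpow_of_exponent_le hL1 (by linarith)
  have hM : Ms k R L = R / (L / R) ^ k := by
    unfold Ms
    rw [Real.rpow_neg hU0.le]
    rfl
  have hLf : Lf k R L = L * (L / R) ^ k := rfl
  have hUk0 : 0 < (L / R) ^ k := by positivity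
  have hlTd : Real.log T ^ (1 - d) * Real.log T ^ d = Real.log T := by
    rw [← Real.rpow_add hlT0]
    norm_num
  have hLlT : L ≤ Real.log T := by
    calc L ≤ Real.log T ^ (1 - d) := h1
      _ ≤ Real.log T ^ (1 : ℝ) := Real.rpow_le_rpow_of_exponent_le hlT (by linarith)
      _ = Real.log T := Real.rpow_one _
  have hUlT : (L / R) ^ d ≤ Real.log T ^ d := Real.rpow_le_rpow hU0.le (hUL.trans hLlT) hd.le
  have hLfl : Lf k R L ≤ Real.log T * (L / R) ^ (k - d) := by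
    rw [hLf, Real.rpow_sub hU0, ← mul_div_assoc, le_div_iff₀ (by positivity)]
    calc L * (L / R) ^ k * (L / R) ^ d ≤ Real.log T ^ (1 - d) * (L / R) ^ k * Real.log T ^ d := by gcongr
      _ = (Real.log T ^ (1 - d) * Real.log T ^ d) * (L / R) ^ k := by ring
      _ = Real.log T * (L / R) ^ k := by rw [hlTd]
  refine ⟨hlT, hR0, hU1, hUd, ?_, ?_, ?_, ?_, ?_, ?_, ?_, ?_⟩
  · rw [hM, le_div_iff₀ hUk0, one_mul]
    exact hUkd.trans h2
  · rw [hM]
    exact div_le_self hR0.le hUk1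
  · rw [hLf]
    exact le_mul_of_one_le_right hL0.le hUk1
  · refine hLfl.trans ?_
    have : (L / R) ^ (k - d) ≤ 1 := Real.rpow_le_one_of_one_le_of_nonpos hU1 (by linarith)
    exact mul_le_of_le_one_right hlT0.le this
  · rw [div_le_iff₀ hlT0]
    linarith
  · unfold Ms
    field_simp
  · rw [hLf, Real.rpow_neg hU0.le]
    field_simp
  · rw [hLf, hM, show (1 + 2 * k) = 1 + k + k by ring, Real.rpow_add hU0, Real.rpow_add hU0, Real.rpow_one]
    field_simp

lemma Xo_eq (k T R L : ℝ) : Xo k T R L = Real.log T / Ms k R L := rfl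

lemma pr_eq (k T R L : ℝ) (p : ℕ) : pr k T R L p = (1 - Ms k R L * Real.log p / Real.log T) ^ 2 := by
  unfold pr
  rw [Xo_eq, div_div_eq_mul_div, mul_comm]

lemma mt_eq (k T R L : ℝ) (p : ℕ) : mt k T R L p = OPT.mt T (Lf k R L) p := rfl

lemma Psi_eq (k T R L x : ℝ) : Psi k T R L x = OPT.Psi T (Ms k R L) (Lf k R L) x := by
  unfold Psi OPT.Psi
  rw [Xo_eq]
  refine Finset.sum_congr rfl fun p _ => ?_
  rw [pr_eq, mt_eq]
  congr 3
  unfold sp
  ring

/-- **O6** -/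
theorem psi_near {k d : ℝ} (hk : 0 < k) (hkd : k ≤ d / 100) (hd : 0 < d) (hd1 : d ≤ 1) : ∃ C T₀ : ℝ, 1 ≤ C ∧
    ∀ T R L x : ℝ, T₀ ≤ T → C ≤ L → Rng d T R L → R ≤ x → x ≤ L →
      |Psi k T R L x - Real.pi / 2| ≤ C * (L / R) ^ (-(k / 2)) := by
  obtain ⟨C, hC, H⟩ := OPT.psi_pi
  refine ⟨C * (3 + 2 / k) + 3, 3, by have : 0 < C * (3 + 2 / k) := by positivity
                                     linarith, fun T R L x hT hL hr hRx hxL => ?_⟩
  have hL3 : 3 ≤ L := by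
    have : 0 < C * (3 + 2 / k) := by positivity
    linarith
  obtain ⟨hlT, hR0, hU1, hUd, hM1, hMR, hLLf, hLfT, q1, q2, q3, q4⟩ := par hk hkd hd hd1 hT hL3 hr
  have hM0 : 0 < Ms k R L := by linarith
  have hx0 : 0 < x := by linarith
  have hL0 : 0 < L := by linarith
  have hU0 : 0 < L / R := by linarith
  have hLf0 : 0 < Lf k R L := by linarith
  have h1 := H T (Ms k R L) (Lf k R L) x (by linarith) hM1 (hMR.trans hRx) (hxL.trans hLLf) hLfT
  rw [Psi_eq]
  refine h1.trans ?_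
  have e1 : Ms k R L / x ≤ (L / R) ^ (-k) := by
    rw [← q2]
    exact div_le_div_of_nonneg_left hM0.le hR0 hRx
  have e2 : x / Lf k R L ≤ (L / R) ^ (-k) := by
    rw [← q3]
    exact div_le_div_of_nonneg_right hxL hLf0.le
  have e3 : Lf k R L * (1 + Real.log (Lf k R L / Ms k R L)) / Real.log T ≤ (1 + 2 / k) * (L / R) ^ (-k) := by
    rw [q4, Real.log_rpow hU0, mul_div_right_comm]
    have h2 : Real.log (L / R) ≤ (L / R) ^ k / k := Real.log_le_rpow_div hU0.le hk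
    have h3 : 1 ≤ (L / R) ^ k := Real.one_le_rpow hU1 hk.le
    have h4 : 1 + (1 + 2 * k) * Real.log (L / R) ≤ (1 + 2 / k) * (L / R) ^ k := by
      have h5 : (1 + 2 * k) * Real.log (L / R) ≤ 2 * ((L / R) ^ k / k) := by
        have h0 := Real.log_nonneg hU1
        calc (1 + 2 * k) * Real.log (L / R) ≤ 2 * Real.log (L / R) := mul_le_mul_of_nonneg_right (by linarith) h0
          _ ≤ _ := mul_le_mul_of_nonneg_left h2 (by norm_num)
      calc 1 + (1 + 2 * k) * Real.log (L / R) ≤ (L / R) ^ k + 2 * ((L / R) ^ k / k) := add_le_add h3 h5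
        _ = _ := by ring
    have h6 : 0 ≤ 1 + (1 + 2 * k) * Real.log (L / R) := by
      have h0 := Real.log_nonneg hU1
      positivity
    calc _ ≤ (L / R) ^ (k - d) * ((1 + 2 / k) * (L / R) ^ k) := mul_le_mul q1 h4 h6 (by positivity)
      _ = (1 + 2 / k) * ((L / R) ^ (k - d) * (L / R) ^ k) := by ring
      _ = (1 + 2 / k) * (L / R) ^ (k - d + k) := by rw [← Real.rpow_add hU0]
      _ ≤ (1 + 2 / k) * (L / R) ^ (-k) := by
        apply mul_le_mul_of_nonneg_left _ (by positivity)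
        exact Real.rpow_le_rpow_of_exponent_le hU1 (by linarith)
  have e4 : (L / R) ^ (-k) ≤ (L / R) ^ (-(k / 2)) := Real.rpow_le_rpow_of_exponent_le hU1 (by linarith)
  calc _ ≤ C * ((L / R) ^ (-k) + (L / R) ^ (-k) + (1 + 2 / k) * (L / R) ^ (-k)) := by gcongr
    _ = C * (3 + 2 / k) * (L / R) ^ (-k) := by ring
    _ ≤ C * (3 + 2 / k) * (L / R) ^ (-(k / 2)) := mul_le_mul_of_nonneg_left e4 (by positivity)
    _ ≤ _ := mul_le_mul_of_nonneg_right (by linarith) (by positivity)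

/-- **O7a** -/
theorem mt_sum {k d : ℝ} (hk : 0 < k) (hkd : k ≤ d / 100) (hd : 0 < d) (hd1 : d ≤ 1) : ∃ C T₀ : ℝ, 1 ≤ C ∧
    ∀ T R L : ℝ, T₀ ≤ T → C ≤ L → Rng d T R L →
      ∑ p ∈ QX (Xo k T R L), mt k T R L p ^ 2 / p ≤ (1 + 2 * k) * Real.log (L / R) + C := by
  obtain ⟨C, hC, H⟩ := OPT.mt_sq
  refine ⟨C + 3, 3, by linarith, fun T R L hT hL hr => ?_⟩
  obtain ⟨hlT, hR0, hU1, hUd, hM1, hMR, hLLf, hLfT, q1, q2, q3, q4⟩ := par hk hkd hd hd1 hT (by linarith) hr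
  have hRL : R ≤ L := by rwa [one_le_div hR0] at hU1
  have h1 := H T (Ms k R L) (Lf k R L) (by linarith) hM1 (by linarith) hLfT
  rw [q4, Real.log_rpow (by linarith)] at h1
  rw [Xo_eq]
  refine (Finset.sum_le_sum fun p _ => ?_).trans (h1.trans (by linarith))
  rw [mt_eq]

/-! ### O7b -/

lemma EvC_im {R L : ℝ} (F : Fam R L) (g : ℝ → ℂ) : (EvC F g).im = Ev F fun x => (g x).im := by
  unfold EvC Ev
  rw [Complex.add_im, Complex.sub_im, Complex.im_sum]
  congr 1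
  refine Finset.sum_congr rfl fun i _ => ?_
  rw [Complex.im_ofReal_mul, Complex.sub_im]

lemma Ev_smul {R L : ℝ} (F : Fam R L) (c : ℝ) (g : ℝ → ℝ) : Ev F (fun x => c * g x) = c * Ev F g := by
  unfold Ev
  rw [mul_add, Finset.mul_sum, mul_sub]
  congr 1
  refine Finset.sum_congr rfl fun i _ => ?_
  ring

lemma Ev_sum {R L : ℝ} (F : Fam R L) (Q : Finset ℕ) (g : ℕ → ℝ → ℝ) : Ev F (fun x => ∑ p ∈ Q, g p x) = ∑ p ∈ Q, Ev F (g p) := by
  unfold Ev
  rw [Finset.sum_add_distrib, Finset.sum_sub_distrib, Finset.sum_comm]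
  congr 1
  refine Finset.sum_congr rfl fun i _ => ?_
  rw [← Finset.sum_sub_distrib, Finset.mul_sum]

lemma wo_re (k T : ℝ) {R L : ℝ} (F : Fam R L) (p : ℕ) :
    (wo k T F p).re = -(1 / Real.pi) * pr k T R L p * Ev F (fun x => Real.sin (x * sp T * Real.log p)) := by
  have h1 : wo k T F p = ((-(1 / Real.pi) * pr k T R L p : ℝ) : ℂ) *
      (Complex.I * EvC F fun x => Complex.exp (-((x * sp T * Real.log p : ℝ) : ℂ) * Complex.I)) := by
    unfold wo
    push_cast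
    ring
  rw [h1, Complex.re_ofReal_mul, Complex.I_mul_re, EvC_im]
  have h2 : (fun x : ℝ => (Complex.exp (-((x * sp T * Real.log p : ℝ) : ℂ) * Complex.I)).im) =
      fun x : ℝ => (-1) * Real.sin (x * sp T * Real.log p) := by
    funext x
    rw [← Complex.ofReal_neg, Complex.exp_ofReal_mul_I_im, Real.sin_neg]
    ring
  rw [h2, Ev_smul]
  ring

lemma dual_eq (k T : ℝ) {R L : ℝ} (F : Fam R L) :
    ∑ p ∈ QX (Xo k T R L), (wo k T F p).re * mt k T R L p / p = -(1 / Real.pi) * Ev F (Psi k T R L) := by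
  have h1 : Psi k T R L = fun x => ∑ p ∈ QX (Xo k T R L), (pr k T R L p * mt k T R L p / p) * Real.sin (x * sp T * Real.log p) := by
    funext x
    unfold Psi
    refine Finset.sum_congr rfl fun p _ => ?_
    ring
  rw [h1, Ev_sum, Finset.mul_sum]
  refine Finset.sum_congr rfl fun p _ => ?_
  rw [wo_re, Ev_smul]
  ring

lemma cs (Q : Finset ℕ) (w : ℕ → ℂ) (m : ℕ → ℝ) :
    (∑ p ∈ Q, (w p).re * m p / p) ^ 2 ≤ (∑ p ∈ Q, ‖w p‖ ^ 2 / p) * ∑ p ∈ Q, m p ^ 2 / p := by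
  have h1 := Finset.sum_mul_sq_le_sq_mul_sq Q (fun p => (w p).re / Real.sqrt p) (fun p => m p / Real.sqrt p)
  have h2 : ∀ p : ℕ, (w p).re / Real.sqrt p * (m p / Real.sqrt p) = (w p).re * m p / p := by
    intro p
    rw [div_mul_div_comm, Real.mul_self_sqrt (Nat.cast_nonneg p)]
  have h3 : ∀ p : ℕ, ((w p).re / Real.sqrt p) ^ 2 = (w p).re ^ 2 / p := by
    intro p
    rw [div_pow, Real.sq_sqrt (Nat.cast_nonneg p)]
  have h4 : ∀ p : ℕ, (m p / Real.sqrt p) ^ 2 = m p ^ 2 / p := by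
    intro p
    rw [div_pow, Real.sq_sqrt (Nat.cast_nonneg p)]
  simp only [h2, h3, h4] at h1
  refine h1.trans (mul_le_mul_of_nonneg_right (Finset.sum_le_sum fun p _ => ?_)
    (Finset.sum_nonneg fun p _ => by positivity))
  refine div_le_div_of_nonneg_right ?_ (Nat.cast_nonneg p)
  have h5 := Complex.abs_re_le_norm (w p)
  rw [← sq_abs (w p).re]
  exact pow_le_pow_left₀ (abs_nonneg _) h5 2

/-- the jump -/
lemma Ev_jump {R L v a : ℝ} (hRL : R ≤ L) (F : Fam R L) {g : ℝ → ℝ} (hodd : ∀ x, g (-x) = -g x)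
    (hg : ∀ x : ℝ, R ≤ x → x ≤ L → |g x - a| ≤ v) : |Ev F g - 2 * a| ≤ 2 * F.B * v := by
  have h1 : |g R - g (-R) - 2 * a| ≤ 2 * v := by
    rw [hodd]
    have := hg R le_rfl hRL
    rw [abs_le] at this ⊢
    constructor <;> linarith [this.1, this.2]
  have h2 : ∀ i, |F.c i * (g (F.b i) - g (F.a i))| ≤ |F.c i| * (2 * v) := by
    intro i
    rw [abs_mul]
    apply mul_le_mul_of_nonneg_left _ (abs_nonneg _)
    have hle := F.le i
    rcases F.out i with h | h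
    · have h3 := hg (-F.a i) (by linarith) (by linarith [h.1])
      have h4 := hg (-F.b i) (by linarith [h.2]) (by linarith [h.1])
      rw [hodd, abs_le] at h3 h4
      rw [abs_le]
      constructor <;> linarith [h3.1, h3.2, h4.1, h4.2]
    · have h3 := hg (F.a i) h.1 (by linarith [h.2])
      have h4 := hg (F.b i) (by linarith [h.1]) h.2
      rw [abs_le] at h3 h4 ⊢
      constructor <;> linarith [h3.1, h3.2, h4.1, h4.2]
  have h3 : |∑ i, F.c i * (g (F.b i) - g (F.a i))| ≤ ∑ i, |F.c i| * (2 * v) :=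
    (Finset.abs_sum_le_sum_abs _ _).trans (Finset.sum_le_sum fun i _ => h2 i)
  rw [← Finset.sum_mul] at h3
  unfold Ev Fam.B
  rw [abs_le] at h1 h3 ⊢
  constructor <;> linarith [h1.1, h1.2, h3.1, h3.2]

/-- **O7b** -/
theorem var_low {k d : ℝ} (hk : 0 < k) (hkd : k ≤ d / 100) (hd : 0 < d) (hd1 : d ≤ 1) : ∃ C T₀ : ℝ, 1 ≤ C ∧
    ∀ T R L : ℝ, T₀ ≤ T → C ≤ L → Rng d T R L → ∀ F : Fam R L, F.B ≤ (L / R) ^ (k / 4) →
      (1 - 3 * k) / Real.log (L / R) ≤ Wf k T F := by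
  obtain ⟨C1, T1, hC1, H1⟩ := psi_near hk hkd hd hd1
  obtain ⟨C2, T2, hC2, H2⟩ := mt_sum hk hkd hd hd1
  -- how large
  obtain ⟨D, hD⟩ : ∃ D, D = (C2 + 8 * C1 / k + 1) / k := ⟨_, rfl⟩
  have hD0 : 0 < D := by rw [hD]; positivity
  refine ⟨Real.exp (D / d) + C1 + C2 + 3, max 3 (max T1 T2), by
    have := Real.exp_pos (D / d)
    linarith, fun T R L hT hL hr F hF => ?_⟩
  have hexp := Real.exp_pos (D / d)
  have hT3 : 3 ≤ T := (le_max_left _ _).trans hT
  have hT1 : T1 ≤ T := ((le_max_left _ _).trans (le_max_right _ _)).trans hT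
  have hT2 : T2 ≤ T := ((le_max_right _ _).trans (le_max_right _ _)).trans hT
  obtain ⟨hlT, hR0, hU1, hUd, hM1, hMR, hLLf, hLfT, q1, q2, q3, q4⟩ := par hk hkd hd hd1 hT3 (by linarith) hr
  have hL0 : 0 < L := by linarith
  have hU0 : 0 < L / R := by linarith
  have hRL : R ≤ L := by rwa [one_le_div hR0] at hU1
  have hM0 : 0 < Ms k R L := by linarith
  obtain ⟨U, hU⟩ : ∃ U, U = L / R := ⟨_, rfl⟩
  rw [← hU] at hU0 hU1 hUd hF ⊢
  have hlU : D ≤ Real.log U := by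
    have h1 : D / d ≤ Real.log L := by
      rw [Real.le_log_iff_exp_le hL0]
      linarith
    have h2 : d * Real.log L ≤ Real.log U := by
      rw [← Real.log_rpow hL0]
      exact Real.log_le_log (by positivity) hUd
    rw [div_le_iff₀ hd] at h1
    linarith
  have hlU0 : 0 < Real.log U := by linarith
  -- the jump
  have hpi := Real.pi_gt_three
  have hodd : ∀ x, Psi k T R L (-x) = -Psi k T R L x := by
    intro x
    rw [Psi_eq, Psi_eq, OPT.psi_neg]
  have hj := Ev_jump hRL F hodd (fun x h1 h2 => H1 T R L x hT1 (by linarith) hr h1 h2)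
  rw [← hU] at hj
  obtain ⟨S, hS⟩ : ∃ S, S = ∑ p ∈ QX (Xo k T R L), (wo k T F p).re * mt k T R L p / p := ⟨_, rfl⟩
  have hS1 := dual_eq k T F
  rw [← hS] at hS1
  have hB : 2 * F.B * (C1 * U ^ (-(k / 2))) ≤ 2 * C1 * U ^ (-(k / 4)) := by
    have h1 : U ^ (-(k / 4)) = U ^ (k / 4) * U ^ (-(k / 2)) := by
      rw [← Real.rpow_add hU0]
      congr 1
      ring
    rw [h1]
    have h2 : 0 ≤ C1 * U ^ (-(k / 2)) := by positivity
    nlinarith [mul_le_mul_of_nonneg_right hF h2]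
  have hS2 : |S + 1| ≤ C1 * U ^ (-(k / 4)) := by
    have h1 : S + 1 = -(1 / Real.pi) * (Ev F (Psi k T R L) - 2 * (Real.pi / 2)) := by
      rw [hS1]
      field_simp
      ring
    rw [h1, abs_mul, abs_neg, abs_of_pos (by positivity)]
    have h2 : 1 / Real.pi ≤ 1 / 2 := one_div_le_one_div_of_le (by norm_num) (by linarith)
    have h3 := hj.trans hB
    calc 1 / Real.pi * |Ev F (Psi k T R L) - 2 * (Real.pi / 2)| ≤ 1 / 2 * (2 * C1 * U ^ (-(k / 4))) :=
        mul_le_mul h2 h3 (abs_nonneg _) (by norm_num)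
      _ = _ := by ring
  have hsq : 1 - 2 * (C1 * U ^ (-(k / 4))) ≤ S ^ 2 := by
    rw [abs_le] at hS2
    nlinarith [hS2.1, hS2.2, sq_nonneg (S + 1)]
  have hcs := cs (QX (Xo k T R L)) (wo k T F) (mt k T R L)
  rw [← hS] at hcs
  have hm := H2 T R L hT2 (by linarith) hr
  rw [← hU] at hm
  have hW0 : 0 ≤ Wf k T F := Finset.sum_nonneg fun p _ => by positivity
  have hWm : S ^ 2 ≤ Wf k T F * ((1 + 2 * k) * Real.log U + C2) := hcs.trans (mul_le_mul_of_nonneg_left hm hW0)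
  have hden : 0 < (1 + 2 * k) * Real.log U + C2 := by positivity
  -- small error
  have herr : U ^ (-(k / 4)) * Real.log U ≤ 4 / k := by
    have h1 := Real.log_le_rpow_div hU0.le (show 0 < k / 4 by positivity)
    calc U ^ (-(k / 4)) * Real.log U ≤ U ^ (-(k / 4)) * (U ^ (k / 4) / (k / 4)) := mul_le_mul_of_nonneg_left h1 (by positivity)
      _ = (U ^ (-(k / 4)) * U ^ (k / 4)) / (k / 4) := by ring
      _ = 4 / k := by
        rw [← Real.rpow_add hU0]
        simp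
  have hfin : (1 - 3 * k) * ((1 + 2 * k) * Real.log U + C2) ≤ (1 - 2 * (C1 * U ^ (-(k / 4)))) * Real.log U := by
    have h1 : C2 + 8 * C1 / k ≤ k * Real.log U := by
      have : k * D ≤ k * Real.log U := mul_le_mul_of_nonneg_left hlU hk.le
      rw [hD, mul_div_cancel₀ _ hk.ne'] at this
      linarith
    have h2 : 2 * (C1 * (U ^ (-(k / 4)) * Real.log U)) ≤ 8 * C1 / k := by
      have := mul_le_mul_of_nonneg_left herr (by linarith : 0 ≤ 2 * C1)
      calc _ = 2 * C1 * (U ^ (-(k / 4)) * Real.log U) := by ring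
        _ ≤ 2 * C1 * (4 / k) := this
        _ = _ := by ring
    have h3 : 0 ≤ k * C2 := by positivity
    have h4 : 0 ≤ k ^ 2 * Real.log U := by positivity
    nlinarith
  rw [div_le_iff₀ hlU0]
  have h5 : (1 - 3 * k) * ((1 + 2 * k) * Real.log U + C2) ≤ (Wf k T F * Real.log U) * ((1 + 2 * k) * Real.log U + C2) := by
    calc _ ≤ (1 - 2 * (C1 * U ^ (-(k / 4)))) * Real.log U := hfin
      _ ≤ S ^ 2 * Real.log U := mul_le_mul_of_nonneg_right hsq hlU0.le
      _ ≤ Wf k T F * ((1 + 2 * k) * Real.log U + C2) * Real.log U := mul_le_mul_of_nonneg_right hWm hlU0.le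
      _ = _ := by ring
  exact le_of_mul_le_mul_right h5 hden

end Pool.Agent.Helper82.OP
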